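import Mathlib

/-!
# MP_628ecd : a strictly singular non-compact composition operator

Let `v k = 1` for odd `k` and `v (2 k) = 2 k v k`.  Let `E` be the space of all
`f(z) = ∑ a_i z^(2i+1) + ∑ v(i+1) b_i z^(2i+2)` with `a ∈ ℓ₁`, `b ∈ ℓ_∞`.  For `φ(z) = z²` the
composition operator maps `(a, b)` to `(0, (a₀, b₀/2, a₁, b₁/4, …))`, which is the sum of the formal
inclusion `ℓ₁ → ℓ_∞` and of a compact diagonal operator.
-/

namespace Pool.Agent.Results.MP_628ecd_an.StrictlySingularComposition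

open Filter Topology
open scoped ENNReal

/-! ### Definitions -/

/-- The open unit disc. -/
abbrev Disc : Set ℂ := Metric.ball (0 : ℂ) 1

/-- A normed space `E` with an injective linear map `ev` to the functions on the disc such that
all `ev f` are analytic and the point evaluations are continuous. (If `E` is complete then it is a
Banach space of analytic functions on the disc.) -/
structure AnalyticSpace (E : Type) [NormedAddCommGroup E] [NormedSpace ℂ E]
    (ev : E →ₗ[ℂ] (Disc → ℂ)) : Prop where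
  injective : Function.Injective ev
  analytic : ∀ f : E, ∃ g : ℂ → ℂ, AnalyticOn ℂ g Disc ∧ ∀ z : Disc, ev f z = g z
  continuous : ∀ z : Disc, Continuous fun f : E => ev f z

/-- An analytic self-map of the disc. -/
def AnalyticSelfMap (φ : Disc → Disc) : Prop :=
  ∃ g : ℂ → ℂ, AnalyticOn ℂ g Disc ∧ ∀ z : Disc, (φ z : ℂ) = g z

/-- `T` is strictly singular: it is not bounded below on any closed infinite-dimensional
subspace. -/
def StrictlySingular {E : Type} [NormedAddCommGroup E] [NormedSpace ℂ E] (T : E →L[ℂ] E) : Prop :=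
  ¬ ∃ M : Submodule ℂ E, IsClosed (M : Set E) ∧ ¬ FiniteDimensional ℂ M ∧
    ∃ c : ℝ, 0 < c ∧ ∀ x ∈ M, c * ‖x‖ ≤ ‖T x‖

/-! ### The weights -/

/-- `v k = 1` for odd `k` and `v (2 k) = 2 k v k`. -/
noncomputable def v : ℕ → ℝ
  | 0 => 1
  | k + 1 => if Even (k + 1) then ((k : ℝ) + 1) * v ((k + 1) / 2) else 1
decreasing_by omega

theorem v_odd {k : ℕ} (hk : ¬ Even k) : v k = 1 := by
  rcases k with _ | k
  · simp at hk
  · rw [v, if_neg hk]

theorem v_even {k : ℕ} (hk : Even k) (hk0 : 0 < k) : v k = k * v (k / 2) := by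
  rcases k with _ | k
  · omega
  · rw [v, if_pos hk]; push_cast; ring

theorem v_pos (k : ℕ) : 0 < v k := by
  induction k using Nat.strong_induction_on with
  | _ k ih =>
    rcases Nat.eq_zero_or_pos k with h | h
    · subst h; rw [v]; exact one_pos
    · by_cases hk : Even k
      · rw [v_even hk h]
        have h1 := ih (k / 2) (Nat.div_lt_self h (by norm_num))
        have h2 : (0 : ℝ) < k := by exact_mod_cast h
        positivity
      · rw [v_odd hk]; exact one_pos

theorem v_bound {r : ℝ} (hr0 : 0 < r) (hr1 : r < 1) : ∃ B : ℝ, 1 ≤ B ∧ ∀ k, v k * r ^ k ≤ B := by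
  have h1 : Tendsto (fun k : ℕ => (k : ℝ) * r ^ k) atTop (𝓝 0) :=
    tendsto_self_mul_const_pow_of_lt_one hr0.le hr1
  obtain ⟨k₀, hk₀⟩ := (h1.eventually_le_const (show (0 : ℝ) < 1 / 2 by norm_num)).exists_forall_of_atTop
  refine ⟨1 + ∑ k ∈ Finset.range (2 * k₀ + 1), v k * r ^ k, ?_, fun k => ?_⟩
  · have : 0 ≤ ∑ k ∈ Finset.range (2 * k₀ + 1), v k * r ^ k :=
      Finset.sum_nonneg fun k _ => mul_nonneg (v_pos k).le (by positivity)
    linarith
  · have hS : 0 ≤ ∑ k ∈ Finset.range (2 * k₀ + 1), v k * r ^ k :=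
      Finset.sum_nonneg fun k _ => mul_nonneg (v_pos k).le (by positivity)
    induction k using Nat.strong_induction_on with
    | _ k ih =>
      by_cases hk : k < 2 * k₀ + 1
      · have := Finset.single_le_sum (f := fun k => v k * r ^ k)
          (fun k _ => mul_nonneg (v_pos k).le (by positivity)) (Finset.mem_range.2 hk)
        linarith
      · by_cases he : Even k
        · obtain ⟨l, hl⟩ := he
          have hl2 : k / 2 = l := by omega
          have hlk : k₀ ≤ l := by omega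
          have hll : l < k := by omega
          rw [v_even ⟨l, hl⟩ (by omega), hl2]
          have h2 := ih l hll
          have h3 := hk₀ l hlk
          have h4 : (k : ℝ) = 2 * l := by rw [hl]; push_cast; ring
          have h5 : r ^ k = r ^ l * r ^ l := by rw [hl, pow_add]
          rw [h4, h5]
          have h6 : 2 * (l : ℝ) * v l * (r ^ l * r ^ l) = (2 * (l * r ^ l)) * (v l * r ^ l) := by
            ring
          rw [h6]
          have h7 : 0 ≤ v l * r ^ l := mul_nonneg (v_pos l).le (by positivity)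
          have h8 : 0 ≤ (l : ℝ) * r ^ l := by positivity
          calc (2 * (l * r ^ l)) * (v l * r ^ l) ≤ 1 * (v l * r ^ l) := by
                gcongr; linarith
            _ ≤ _ := by rw [one_mul]; exact h2
        · rw [v_odd he, one_mul]
          have : r ^ k ≤ 1 := pow_le_one₀ hr0.le hr1.le
          linarith

/-! ### The space -/

/-- The space of pairs `(a, b)` with `a ∈ ℓ₁` and `b ∈ ℓ_∞`. -/
abbrev V := lp (fun _ : ℕ => ℂ) 1 × lp (fun _ : ℕ => ℂ) ∞

/-- The coefficient of `z ^ (n + 1)`. -/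
noncomputable def coef (x : V) (n : ℕ) : ℂ :=
  if Even n then x.1 (n / 2) else (v ((n + 1) / 2) : ℂ) * x.2 (n / 2)

theorem norm_fst_apply_le (x : V) (i : ℕ) : ‖x.1 i‖ ≤ ‖x‖ :=
  (lp.norm_apply_le_norm one_ne_zero x.1 i).trans (norm_fst_le x)

theorem norm_snd_apply_le (x : V) (i : ℕ) : ‖x.2 i‖ ≤ ‖x‖ :=
  (lp.norm_apply_le_norm ENNReal.top_ne_zero x.2 i).trans (norm_snd_le x)

theorem norm_term_le {r B : ℝ} (hr0 : 0 < r) (hr1 : r < 1) (hB : 1 ≤ B)
    (h : ∀ k, v k * r ^ k ≤ B) (x : V) (n : ℕ) {z : ℂ} (hz : ‖z‖ ≤ r ^ 2) :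
    ‖coef x n * z ^ (n + 1)‖ ≤ ‖x‖ * B * r ^ (n + 1) := by
  rw [norm_mul, norm_pow]
  have hx : 0 ≤ ‖x‖ := norm_nonneg x
  have hzn : ‖z‖ ^ (n + 1) ≤ r ^ (n + 1) * r ^ (n + 1) := by
    calc ‖z‖ ^ (n + 1) ≤ (r ^ 2) ^ (n + 1) := by gcongr
      _ = r ^ (n + 1) * r ^ (n + 1) := by rw [← pow_mul, ← pow_add]; congr 1; ring
  have hrn : r ^ (n + 1) ≤ 1 := pow_le_one₀ hr0.le hr1.le
  have hrn0 : 0 < r ^ (n + 1) := by positivity
  unfold coef
  split_ifs with he
  · calc ‖x.1 (n / 2)‖ * ‖z‖ ^ (n + 1) ≤ ‖x‖ * (r ^ (n + 1) * r ^ (n + 1)) := by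
          gcongr; exact norm_fst_apply_le x _
      _ ≤ ‖x‖ * (B * r ^ (n + 1)) := by
          gcongr; linarith
      _ = ‖x‖ * B * r ^ (n + 1) := by ring
  · rw [norm_mul, Complex.norm_real, Real.norm_of_nonneg (v_pos _).le]
    have h1 : v ((n + 1) / 2) * r ^ (n + 1) ≤ B := by
      refine le_trans ?_ (h ((n + 1) / 2))
      refine mul_le_mul_of_nonneg_left ?_ (v_pos _).le
      exact pow_le_pow_of_le_one hr0.le hr1.le (Nat.div_le_self _ _)
    calc v ((n + 1) / 2) * ‖x.2 (n / 2)‖ * ‖z‖ ^ (n + 1)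
        ≤ v ((n + 1) / 2) * ‖x‖ * (r ^ (n + 1) * r ^ (n + 1)) := by
          have := (v_pos ((n + 1) / 2)).le
          gcongr; exact norm_snd_apply_le x _
      _ = (v ((n + 1) / 2) * r ^ (n + 1)) * (‖x‖ * r ^ (n + 1)) := by ring
      _ ≤ B * (‖x‖ * r ^ (n + 1)) := by gcongr
      _ = ‖x‖ * B * r ^ (n + 1) := by ring

theorem summable_bound {r : ℝ} (hr0 : 0 < r) (hr1 : r < 1) (C : ℝ) :
    Summable fun n : ℕ => C * r ^ (n + 1) :=
  ((summable_nat_add_iff 1).2 (summable_geometric_of_lt_one hr0.le hr1)).mul_left C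

/-- The analytic function given by `x`. -/
noncomputable def F (x : V) (z : ℂ) : ℂ := ∑' n : ℕ, coef x n * z ^ (n + 1)

theorem exists_radius {z : ℂ} (hz : ‖z‖ < 1) : ∃ r : ℝ, 0 < r ∧ r < 1 ∧ ‖z‖ < r ^ 2 := by
  refine ⟨Real.sqrt ((1 + ‖z‖) / 2), Real.sqrt_pos.2 (by positivity), ?_, ?_⟩
  · rw [Real.sqrt_lt' one_pos]; linarith
  · rw [Real.sq_sqrt (by positivity)]; linarith

theorem summable_term (x : V) {z : ℂ} (hz : ‖z‖ < 1) :
    Summable fun n : ℕ => coef x n * z ^ (n + 1) := by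
  obtain ⟨r, hr0, hr1, hr⟩ := exists_radius hz
  obtain ⟨B, hB, h⟩ := v_bound hr0 hr1
  exact Summable.of_norm_bounded (summable_bound hr0 hr1 _)
    fun n => norm_term_le hr0 hr1 hB h x n hr.le

theorem coef_add (x y : V) (n : ℕ) : coef (x + y) n = coef x n + coef y n := by
  unfold coef
  split_ifs
  · rfl
  · change (v ((n + 1) / 2) : ℂ) * (x.2 (n / 2) + y.2 (n / 2)) = _
    ring

theorem coef_smul (c : ℂ) (x : V) (n : ℕ) : coef (c • x) n = c * coef x n := by
  unfold coef
  split_ifs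
  · rfl
  · change (v ((n + 1) / 2) : ℂ) * (c * x.2 (n / 2)) = _
    ring

theorem norm_F_le {r B : ℝ} (hr0 : 0 < r) (hr1 : r < 1) (hB : 1 ≤ B)
    (h : ∀ k, v k * r ^ k ≤ B) (x : V) {z : ℂ} (hz : ‖z‖ ≤ r ^ 2) :
    ‖F x z‖ ≤ (∑' n : ℕ, B * r ^ (n + 1)) * ‖x‖ := by
  have h1 := (summable_bound hr0 hr1 B).hasSum.mul_left ‖x‖
  rw [mul_comm]
  refine tsum_of_norm_bounded h1 fun n => ?_
  have := norm_term_le hr0 hr1 hB h x n hz
  linarith

/-- The evaluation map. -/
noncomputable def ev : V →ₗ[ℂ] (Disc → ℂ) where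
  toFun x z := F x z
  map_add' x y := by
    funext z
    have hz : ‖(z : ℂ)‖ < 1 := mem_ball_zero_iff.1 z.2
    simp only [F, Pi.add_apply]
    rw [← (summable_term x hz).tsum_add (summable_term y hz)]
    refine tsum_congr fun n => ?_
    rw [coef_add]; ring
  map_smul' c x := by
    funext z
    simp only [F, Pi.smul_apply, smul_eq_mul, RingHom.id_apply]
    rw [← tsum_mul_left]
    refine tsum_congr fun n => ?_
    rw [coef_smul]; ring

theorem ev_apply (x : V) (z : Disc) : ev x z = F x z := rfl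

theorem continuous_ev (z : Disc) : Continuous fun x : V => ev x z := by
  have hz : ‖(z : ℂ)‖ < 1 := mem_ball_zero_iff.1 z.2
  obtain ⟨r, hr0, hr1, hr⟩ := exists_radius hz
  obtain ⟨B, hB, h⟩ := v_bound hr0 hr1
  have : Continuous ((LinearMap.proj z).comp ev : V →ₗ[ℂ] ℂ) :=
    AddMonoidHomClass.continuous_of_bound _ (∑' n : ℕ, B * r ^ (n + 1)) fun x =>
      norm_F_le hr0 hr1 hB h x hr.le
  exact this

theorem analytic_F (x : V) : AnalyticOn ℂ (F x) Disc := by
  rw [Metric.isOpen_ball.analyticOn_iff_analyticOnNhd]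
  refine DifferentiableOn.analyticOnNhd (fun z hz => ?_) Metric.isOpen_ball
  have hz' : ‖z‖ < 1 := by simpa using hz
  obtain ⟨r, hr0, hr1, hr⟩ := exists_radius hz'
  obtain ⟨B, hB, h⟩ := v_bound hr0 hr1
  have h1 : DifferentiableOn ℂ (F x) (Metric.ball 0 (r ^ 2)) := by
    refine Complex.differentiableOn_tsum_of_summable_norm (u := fun n => ‖x‖ * B * r ^ (n + 1))
      (summable_bound hr0 hr1 _) (fun n => by fun_prop) Metric.isOpen_ball fun n w hw => ?_
    exact norm_term_le hr0 hr1 hB h x n (by simpa using (Metric.mem_ball.1 hw).le)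
  exact ((h1 z (by simpa using hr)).differentiableAt
    (Metric.isOpen_ball.mem_nhds (by simpa using hr))).differentiableWithinAt

/-- Uniqueness of the coefficients. -/
theorem coef_eq_zero {x : V} (hx : ∀ z : ℂ, ‖z‖ < 1 → F x z = 0) (n : ℕ) : coef x n = 0 := by
  induction n using Nat.strong_induction_on with
  | _ n ih =>
    obtain ⟨B, hB, h⟩ := v_bound (r := 1 / 2) (by norm_num) (by norm_num)
    set A : ℝ := ‖x‖ * B with hA
    have hA0 : 0 ≤ A := by positivity
    -- bound of the coefficients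
    have hc : ∀ m, ‖coef x m‖ ≤ A * 2 ^ (m + 1) := by
      intro m
      have h1 := norm_term_le (by norm_num) (by norm_num) hB h x m (z := 1 / 4) (by norm_num)
      rw [norm_mul, norm_pow] at h1
      have h2 : ‖(1 / 4 : ℂ)‖ = 1 / 4 := by norm_num
      rw [h2] at h1
      have h3 : (1 / 4 : ℝ) ^ (m + 1) * 4 ^ (m + 1) = 1 := by rw [← mul_pow]; norm_num
      have h4 : (1 / 2 : ℝ) ^ (m + 1) * 4 ^ (m + 1) = 2 ^ (m + 1) := by rw [← mul_pow]; norm_num
      calc ‖coef x m‖ = ‖coef x m‖ * (1 / 4) ^ (m + 1) * 4 ^ (m + 1) := by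
            rw [mul_assoc, h3, mul_one]
        _ ≤ A * (1 / 2) ^ (m + 1) * 4 ^ (m + 1) := by gcongr
        _ = A * 2 ^ (m + 1) := by rw [mul_assoc, h4]
    -- for small positive `t`
    have key : ∀ t : ℝ, 0 < t → t ≤ 1 / 4 → ‖coef x n‖ ≤ A * 2 ^ (n + 3) * t := by
      intro t ht ht4
      have htz : ‖(t : ℂ)‖ < 1 := by
        rw [Complex.norm_real, Real.norm_of_nonneg ht.le]; linarith
      have h1 := hx t htz
      unfold F at h1
      have hsum := summable_term x htz
      rw [← hsum.sum_add_tsum_nat_add (n + 1), Finset.sum_range_succ,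
        Finset.sum_eq_zero (fun m hm => by rw [ih m (Finset.mem_range.1 hm), zero_mul]),
        zero_add] at h1
      have h2 : ‖∑' m : ℕ, coef x (m + (n + 1)) * (t : ℂ) ^ (m + (n + 1) + 1)‖ ≤
          A * (2 * t) ^ (n + 2) * 2 := by
        refine tsum_of_norm_bounded (hasSum_geometric_two.mul_left (A * (2 * t) ^ (n + 2)))
          fun m => ?_
        rw [norm_mul, norm_pow, Complex.norm_real, Real.norm_of_nonneg ht.le]
        calc ‖coef x (m + (n + 1))‖ * t ^ (m + (n + 1) + 1)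
            ≤ A * 2 ^ (m + (n + 1) + 1) * t ^ (m + (n + 1) + 1) := by
              gcongr; exact hc _
          _ = A * (2 * t) ^ (n + 2) * (2 * t) ^ m := by
              have h9 : (2 * t) ^ (m + (n + 1) + 1) = (2 * t) ^ (n + 2) * (2 * t) ^ m := by
                rw [← pow_add]; congr 1; ring
              rw [mul_assoc A ((2 * t) ^ (n + 2)), ← h9, mul_pow]; ring
          _ ≤ A * (2 * t) ^ (n + 2) * (1 / 2) ^ m := by
              gcongr; linarith
      have h3 : coef x n * (t : ℂ) ^ (n + 1) =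
          -∑' m : ℕ, coef x (m + (n + 1)) * (t : ℂ) ^ (m + (n + 1) + 1) :=
        eq_neg_of_add_eq_zero_left h1
      have h4 : ‖coef x n‖ * t ^ (n + 1) ≤ A * (2 * t) ^ (n + 2) * 2 := by
        have := congrArg norm h3
        rw [norm_neg, norm_mul, norm_pow, Complex.norm_real, Real.norm_of_nonneg ht.le] at this
        rw [this]; exact h2
      have h5 : A * (2 * t) ^ (n + 2) * 2 = (A * 2 ^ (n + 3) * t) * t ^ (n + 1) := by
        rw [mul_pow]; ring
      rw [h5] at h4
      exact le_of_mul_le_mul_right h4 (by positivity)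
    by_contra hne
    have hpos : 0 < ‖coef x n‖ := norm_pos_iff.2 hne
    set D : ℝ := A * 2 ^ (n + 3) with hD
    have hD0 : 0 ≤ D := by positivity
    have h6 := key (min (1 / 4) (‖coef x n‖ / (2 * (D + 1)))) (lt_min (by norm_num) (by positivity))
      (min_le_left _ _)
    have h7 : D * min (1 / 4) (‖coef x n‖ / (2 * (D + 1))) ≤ ‖coef x n‖ / 2 := by
      calc D * min (1 / 4) (‖coef x n‖ / (2 * (D + 1)))
          ≤ (D + 1) * (‖coef x n‖ / (2 * (D + 1))) := by
            gcongr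
            · linarith
            · exact min_le_right _ _
        _ = ‖coef x n‖ / 2 := by field_simp
    linarith

theorem injective_ev : Function.Injective ev := by
  rw [injective_iff_map_eq_zero]
  intro x hx
  have h0 : ∀ z : ℂ, ‖z‖ < 1 → F x z = 0 := fun z hz => by
    have := congrFun hx ⟨z, by simpa using hz⟩
    exact this
  have h1 := coef_eq_zero h0
  apply Prod.ext
  · apply lp.ext
    funext i
    have := h1 (2 * i)
    rw [coef, if_pos (by simp)] at this
    simpa using this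
  · apply lp.ext
    funext i
    have := h1 (2 * i + 1)
    rw [coef, if_neg (by simp)] at this
    rcases mul_eq_zero.1 this with h2 | h2
    · exact absurd (Complex.ofReal_eq_zero.1 h2) (v_pos _).ne'
    · have h3 : (2 * i + 1) / 2 = i := by omega
      rw [h3] at h2
      simpa using h2

/-! ### The composition operator -/

/-- The sequence `(a₀, b₀/2, a₁, b₁/4, …)`. -/
noncomputable def cfun (x : V) (n : ℕ) : ℂ :=
  if Even n then x.1 (n / 2) else x.2 (n / 2) / ((n : ℂ) + 1)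

theorem norm_natCast_add_one (n : ℕ) : ‖((n : ℂ) + 1)‖ = (n : ℝ) + 1 := by
  have : ((n : ℂ) + 1) = ((n + 1 : ℕ) : ℂ) := by push_cast; rfl
  rw [this, Complex.norm_natCast]; push_cast; rfl

theorem norm_cfun_le (x : V) (n : ℕ) : ‖cfun x n‖ ≤ ‖x‖ := by
  unfold cfun
  split_ifs
  · exact norm_fst_apply_le x _
  · rw [norm_div, norm_natCast_add_one]
    have h1 : (0 : ℝ) ≤ n := Nat.cast_nonneg n
    calc ‖x.2 (n / 2)‖ / ((n : ℝ) + 1) ≤ ‖x.2 (n / 2)‖ :=
          div_le_self (norm_nonneg _) (by linarith)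
      _ ≤ ‖x‖ := norm_snd_apply_le x _

/-- The sequence `cfun x` as an element of `ℓ_∞`. -/
noncomputable def cvec (x : V) : lp (fun _ : ℕ => ℂ) ∞ :=
  ⟨cfun x, memℓp_infty ⟨‖x‖, by rintro _ ⟨n, rfl⟩; exact norm_cfun_le x n⟩⟩

/-- The composition operator in coordinates. -/
noncomputable def C : V →L[ℂ] V :=
  LinearMap.mkContinuous
    { toFun := fun x => (0, cvec x)
      map_add' := fun x y => by
        apply Prod.ext
        · simp
        · apply lp.ext
          funext n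
          change cfun (x + y) n = cfun x n + cfun y n
          unfold cfun
          split_ifs
          · rfl
          · change (x.2 (n / 2) + y.2 (n / 2)) / ((n : ℂ) + 1) = _
            ring
      map_smul' := fun c x => by
        apply Prod.ext
        · simp
        · apply lp.ext
          funext n
          change cfun (c • x) n = c * cfun x n
          unfold cfun
          split_ifs
          · rfl
          · change (c * x.2 (n / 2)) / ((n : ℂ) + 1) = _
            ring }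
    1 (fun x => by
      rw [one_mul]
      refine max_le (by simp) ?_
      exact lp.norm_le_of_forall_le (norm_nonneg x) fun n => norm_cfun_le x n)

theorem C_apply (x : V) : C x = (0, cvec x) := rfl

theorem C_snd (x : V) (n : ℕ) : (C x).2 n = cfun x n := rfl

theorem C_fst (x : V) (n : ℕ) : (C x).1 n = 0 := rfl

theorem coef_C_even (x : V) (j : ℕ) (hj : Even j) : coef (C x) j = 0 := by
  rw [coef, if_pos hj, C_fst]

theorem coef_C_odd (x : V) (j : ℕ) : coef (C x) (2 * j + 1) = coef x j := by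
  have h1 : (2 * j + 1) / 2 = j := by omega
  have h2 : (2 * j + 1 + 1) / 2 = j + 1 := by omega
  rw [coef, if_neg (by simp), C_snd, h1, h2, cfun, coef]
  split_ifs with hj
  · have h3 : ¬ Even (j + 1) := by rw [Nat.even_add_one]; simpa using hj
    rw [v_odd h3]; simp
  · have h3 : Even (j + 1) := by rw [Nat.even_add_one]; exact hj
    rw [v_even h3 (Nat.succ_pos j)]
    have h4 : ((j : ℂ) + 1) ≠ 0 := by exact_mod_cast Nat.succ_ne_zero j
    push_cast
    field_simp

theorem F_C (x : V) (z : ℂ) : F (C x) z = F x (z ^ 2) := by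
  unfold F
  have hinj : Function.Injective (fun j : ℕ => 2 * j + 1) := fun a b h => by
    simp only at h; omega
  rw [← hinj.tsum_eq (f := fun n => coef (C x) n * z ^ (n + 1))]
  · refine tsum_congr fun j => ?_
    rw [coef_C_odd, ← pow_mul]
    congr 2
  · intro n hn
    rcases Nat.even_or_odd n with he | ⟨k, hk⟩
    · rw [Function.mem_support, coef_C_even x n he, zero_mul] at hn
      exact absurd rfl hn
    · exact ⟨k, hk.symm⟩

/-- The map `z ↦ z²`. -/
noncomputable def phi (z : Disc) : Disc :=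
  ⟨(z : ℂ) ^ 2, by
    have hz : ‖(z : ℂ)‖ < 1 := mem_ball_zero_iff.1 z.2
    rw [mem_ball_zero_iff, norm_pow]
    exact pow_lt_one₀ (norm_nonneg _) hz (by norm_num)⟩

theorem not_compact : ¬ IsCompactOperator C := by
  intro h
  obtain ⟨K, hK, hKs⟩ := h.image_closedBall_subset_compact (f := C.toLinearMap) 1
  set x : ℕ → V := fun i => (lp.single 1 i (1 : ℂ), 0) with hx
  have hxn : ∀ i, ‖x i‖ ≤ 1 := by
    intro i
    refine max_le ?_ (by simp [hx])
    change ‖(lp.single 1 i (1 : ℂ) : lp (fun _ : ℕ => ℂ) 1)‖ ≤ 1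
    rw [lp.norm_single (by norm_num), norm_one]
  have hmem : ∀ i, C (x i) ∈ K := fun i => hKs ⟨x i, by simpa using hxn i, rfl⟩
  obtain ⟨a, -, σ, hσ, hlim⟩ := hK.tendsto_subseq hmem
  have hcauchy := hlim.cauchySeq
  rw [Metric.cauchySeq_iff'] at hcauchy
  obtain ⟨N, hN⟩ := hcauchy (1 / 2) (by norm_num)
  have h1 := hN (N + 1) (Nat.le_succ N)
  rw [Function.comp_apply, Function.comp_apply, dist_eq_norm, ← map_sub] at h1
  have hne : σ N ≠ σ (N + 1) := (hσ (Nat.lt_succ_self N)).ne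
  have h2 := norm_snd_apply_le (C (x (σ (N + 1)) - x (σ N))) (2 * σ (N + 1))
  have h3 : (C (x (σ (N + 1)) - x (σ N))).2 (2 * σ (N + 1)) = 1 := by
    rw [C_snd, cfun, if_pos (by simp)]
    have h4 : 2 * σ (N + 1) / 2 = σ (N + 1) := by omega
    rw [h4]
    change (lp.single 1 (σ (N + 1)) (1 : ℂ) : lp (fun _ : ℕ => ℂ) 1) (σ (N + 1)) -
      (lp.single 1 (σ N) (1 : ℂ) : lp (fun _ : ℕ => ℂ) 1) (σ (N + 1)) = 1
    rw [lp.single_apply_self, lp.single_apply_ne _ _ _ hne.symm, sub_zero]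
  rw [h3, norm_one] at h2
  linarith

/-- In an infinite-dimensional subspace there are non-zero vectors whose first coordinates
vanish. -/
theorem exists_tail (M : Submodule ℂ V) (hM : ¬ FiniteDimensional ℂ M) (N : ℕ) :
    ∃ x ∈ M, x ≠ 0 ∧ ∀ i < N, x.1 i = 0 ∧ x.2 i = 0 := by
  let L : M →ₗ[ℂ] (Fin N → ℂ) × (Fin N → ℂ) :=
    { toFun := fun x => (fun i => x.1.1 i, fun i => x.1.2 i)
      map_add' := fun x y => rfl
      map_smul' := fun c x => rfl }
  have h1 : ¬ Function.Injective L := fun h =>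
    hM (FiniteDimensional.of_injective L h)
  rw [injective_iff_map_eq_zero] at h1
  push Not at h1
  obtain ⟨x, hx, hx0⟩ := h1
  refine ⟨x, x.2, fun h => hx0 (Subtype.ext h), fun i hi => ?_⟩
  have h2 := congrArg Prod.fst hx
  have h3 := congrArg Prod.snd hx
  exact ⟨congrFun h2 ⟨i, hi⟩, congrFun h3 ⟨i, hi⟩⟩

/-- The tail subspace. -/
def tail (N : ℕ) : Submodule ℂ V where
  carrier := {x | ∀ i < N, x.1 i = 0 ∧ x.2 i = 0}
  zero_mem' := fun i _ => ⟨rfl, rfl⟩
  add_mem' := fun {x y} hx hy i hi => by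
    obtain ⟨h1, h2⟩ := hx i hi
    obtain ⟨h3, h4⟩ := hy i hi
    refine ⟨?_, ?_⟩
    · change x.1 i + y.1 i = 0
      rw [h1, h3, add_zero]
    · change x.2 i + y.2 i = 0
      rw [h2, h4, add_zero]
  smul_mem' := fun c x hx i hi => by
    obtain ⟨h1, h2⟩ := hx i hi
    refine ⟨?_, ?_⟩
    · change c * x.1 i = 0
      rw [h1, mul_zero]
    · change c * x.2 i = 0
      rw [h2, mul_zero]

theorem strictlySingular : StrictlySingular C := by
  rintro ⟨M, -, hM, c, hc, hMc⟩
  obtain ⟨N₀, hN₀⟩ := exists_nat_gt (1 / c)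
  -- Lemma A
  have lemA : ∀ x ∈ M, x ∈ tail N₀ → ∀ t : ℝ, 0 ≤ t → (∀ i, ‖x.1 i‖ ≤ t) → c * ‖x‖ ≤ t := by
    intro x hx hxt t ht hi
    by_contra hcon
    push Not at hcon
    have hxpos : 0 < ‖x‖ := by
      by_contra h
      have : ‖x‖ = 0 := le_antisymm (not_lt.1 h) (norm_nonneg x)
      rw [this, mul_zero] at hcon
      linarith
    have hN₀' : (0 : ℝ) < N₀ := lt_trans (by positivity) hN₀
    have h1 : ‖C x‖ ≤ max t (‖x‖ / N₀) := by
      refine max_le ?_ ?_
      · have : (C x).1 = 0 := rfl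
        rw [this, norm_zero]; exact le_max_of_le_left ht
      · refine lp.norm_le_of_forall_le (le_max_of_le_left ht) fun n => ?_
        rw [C_snd, cfun]
        split_ifs with he
        · exact le_max_of_le_left (hi _)
        · by_cases hn : n / 2 < N₀
          · rw [(hxt _ hn).2, zero_div, norm_zero]; exact le_max_of_le_left ht
          · refine le_max_of_le_right ?_
            rw [norm_div, norm_natCast_add_one]
            have h2 : N₀ ≤ n := by omega
            have h3 : (N₀ : ℝ) ≤ n := by exact_mod_cast h2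
            have h4 := norm_snd_apply_le x (n / 2)
            gcongr
            linarith
    have h2 := hMc x hx
    have h3 : ‖x‖ / N₀ < c * ‖x‖ := by
      rw [div_lt_iff₀ hN₀']
      rw [div_lt_iff₀ hc] at hN₀
      nlinarith
    have h4 : c * ‖x‖ ≤ max t (‖x‖ / N₀) := h2.trans h1
    rcases le_max_iff.1 h4 with h5 | h5 <;> linarith
  -- the supremum of the `ℓ₁`-norms
  set A : Set ℝ := {s | ∃ x ∈ M, x ∈ tail N₀ ∧ (∀ i, ‖x.1 i‖ ≤ 1) ∧ s = ‖x.1‖} with hA
  have hAne : A.Nonempty := ⟨0, 0, M.zero_mem, (tail N₀).zero_mem, fun i => by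
    change ‖(0 : ℂ)‖ ≤ 1
    simp, by simp⟩
  have hAbdd : BddAbove A := by
    refine ⟨1 / c, ?_⟩
    rintro _ ⟨x, hx, hxt, hi, rfl⟩
    have h1 := lemA x hx hxt 1 zero_le_one hi
    rw [le_div_iff₀ hc]
    calc ‖x.1‖ * c ≤ ‖x‖ * c := by gcongr; exact norm_fst_le x
      _ ≤ 1 := by linarith
  obtain ⟨_, ⟨x, hx, hxt, hxi, rfl⟩, hxS⟩ := exists_lt_of_lt_csSup hAne
    (show sSup A - 1 / 16 < sSup A by linarith)
  -- the tail of `x`
  have hsum : HasSum (fun i => ‖x.1 i‖) ‖x.1‖ := by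
    have := lp.hasSum_norm (p := 1) (by norm_num) x.1
    simpa using this
  have htail := hsum.summable.tendsto_sum_tsum_nat
  rw [hsum.tsum_eq] at htail
  obtain ⟨N₁, hN₁⟩ := (htail.eventually (lt_mem_nhds
    (show ‖x.1‖ - 1 / 16 < ‖x.1‖ by linarith))).exists_forall_of_atTop
  have hN := hN₁ (max N₀ N₁) (le_max_right _ _)
  set N := max N₀ N₁ with hNdef
  obtain ⟨y, hy, hy0, hyt⟩ := exists_tail M hM N
  have hyt' : y ∈ tail N₀ := fun i hi => hyt i (lt_of_lt_of_le hi (le_max_left _ _))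
  -- scale `y`
  have hybdd : BddAbove (Set.range fun i => ‖y.1 i‖) :=
    ⟨‖y‖, by rintro _ ⟨i, rfl⟩; exact norm_fst_apply_le y i⟩
  set t : ℝ := ⨆ i, ‖y.1 i‖ with ht
  have hyi : ∀ i, ‖y.1 i‖ ≤ t := fun i => le_ciSup hybdd i
  have ht0 : 0 ≤ t := (norm_nonneg _).trans (hyi 0)
  have htpos : 0 < t := by
    have h1 := lemA y hy hyt' t ht0 hyi
    have h2 : 0 < ‖y‖ := norm_pos_iff.2 hy0
    have : 0 < c * ‖y‖ := by positivity
    linarith
  set w : V := (((1 / (2 * t) : ℝ)) : ℂ) • y with hw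
  have hwM : w ∈ M := M.smul_mem _ hy
  have hwt : w ∈ tail N₀ := (tail N₀).smul_mem _ hyt'
  have hwi : ∀ i, ‖w.1 i‖ = ‖y.1 i‖ / (2 * t) := by
    intro i
    change ‖(((1 / (2 * t) : ℝ)) : ℂ) * y.1 i‖ = _
    rw [norm_mul, Complex.norm_real, Real.norm_of_nonneg (by positivity)]
    ring
  have hwhalf : ∀ i, ‖w.1 i‖ ≤ 1 / 2 := by
    intro i
    rw [hwi, div_le_iff₀ (by positivity)]
    linarith [hyi i]
  have hwzero : ∀ i < N, w.1 i = 0 := by
    intro i hi
    change (((1 / (2 * t) : ℝ)) : ℂ) * y.1 i = 0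
    rw [(hyt i hi).1, mul_zero]
  have hwnorm : 1 / 4 ≤ ‖w.1‖ := by
    obtain ⟨i, hi⟩ := exists_lt_of_lt_ciSup (show t / 2 < ⨆ i, ‖y.1 i‖ by linarith)
    have h1 := lp.norm_apply_le_norm one_ne_zero w.1 i
    rw [hwi] at h1
    refine le_trans ?_ h1
    rw [le_div_iff₀ (by positivity)]
    linarith
  -- tail coordinates of `x` are small
  have hxsmall : ∀ i, N ≤ i → ‖x.1 i‖ ≤ 1 / 16 := by
    intro i hi
    have h1 : ∑ j ∈ Finset.range N, ‖x.1 j‖ + ‖x.1 i‖ ≤ ‖x.1‖ := by
      have h2 := sum_le_hasSum (insert i (Finset.range N)) (fun j _ => norm_nonneg _) hsum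
      rw [Finset.sum_insert (by simp [hi])] at h2
      linarith
    linarith
  have hadd : ∀ e : ℂ, ‖e‖ = 1 → ‖(x + e • w).1‖ ∈ A := by
    intro e he
    refine ⟨x + e • w, M.add_mem hx (M.smul_mem _ hwM),
      (tail N₀).add_mem hxt ((tail N₀).smul_mem _ hwt), fun i => ?_, rfl⟩
    change ‖x.1 i + e * w.1 i‖ ≤ 1
    by_cases hi : i < N
    · rw [hwzero i hi, mul_zero, add_zero]; exact hxi i
    · calc ‖x.1 i + e * w.1 i‖ ≤ ‖x.1 i‖ + ‖e * w.1 i‖ := norm_add_le _ _
        _ ≤ 1 / 16 + 1 / 2 := by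
            rw [norm_mul, he, one_mul]
            exact add_le_add (hxsmall i (not_lt.1 hi)) (hwhalf i)
        _ ≤ 1 := by norm_num
  have hplus := le_csSup hAbdd (hadd 1 (by simp))
  have hwsum : HasSum (fun i => ‖w.1 i‖) ‖w.1‖ := by
    have := lp.hasSum_norm (p := 1) (by norm_num) w.1
    simpa using this
  have hpsum : HasSum (fun i => ‖(x + (1 : ℂ) • w).1 i‖) ‖(x + (1 : ℂ) • w).1‖ := by
    have := lp.hasSum_norm (p := 1) (by norm_num) (x + (1 : ℂ) • w).1
    simpa using this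
  -- lower bound of the norm of `x + w`
  have hlow : ∑ i ∈ Finset.range N, ‖x.1 i‖ + (‖w.1‖ - 1 / 16) ≤ ‖(x + (1 : ℂ) • w).1‖ := by
    have h1 : HasSum (fun i => ‖(x + (1 : ℂ) • w).1 i‖ + ‖x.1 i‖ - ‖w.1 i‖)
        (‖(x + (1 : ℂ) • w).1‖ + ‖x.1‖ - ‖w.1‖) := (hpsum.add hsum).sub hwsum
    have h2 : ∀ i, 0 ≤ ‖(x + (1 : ℂ) • w).1 i‖ + ‖x.1 i‖ - ‖w.1 i‖ := by
      intro i
      have h3 : (x + (1 : ℂ) • w).1 i = x.1 i + 1 * w.1 i := rfl
      rw [h3, one_mul]
      have h4 : ‖w.1 i‖ ≤ ‖x.1 i + w.1 i‖ + ‖x.1 i‖ := by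
        have := norm_sub_le (x.1 i + w.1 i) (x.1 i)
        rwa [add_sub_cancel_left] at this
      linarith
    have h5 := sum_le_hasSum (Finset.range N) (fun i _ => h2 i) h1
    have h6 : ∑ i ∈ Finset.range N, (‖(x + (1 : ℂ) • w).1 i‖ + ‖x.1 i‖ - ‖w.1 i‖) =
        2 * ∑ i ∈ Finset.range N, ‖x.1 i‖ := by
      rw [Finset.mul_sum]
      refine Finset.sum_congr rfl fun i hi => ?_
      have h3 : (x + (1 : ℂ) • w).1 i = x.1 i + 1 * w.1 i := rfl
      rw [h3, hwzero i (Finset.mem_range.1 hi)]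
      simp; ring
    rw [h6] at h5
    linarith
  linarith

theorem result : ∃ (E : Type) (_ : NormedAddCommGroup E) (_ : NormedSpace ℂ E)
    (_ : CompleteSpace E) (ev : E →ₗ[ℂ] (Disc → ℂ)) (φ : Disc → Disc) (C : E →L[ℂ] E),
    AnalyticSpace E ev ∧ AnalyticSelfMap φ ∧ (∀ f z, ev (C f) z = ev f (φ z)) ∧
    StrictlySingular C ∧ ¬ IsCompactOperator C := by
  refine ⟨V, inferInstance, inferInstance, inferInstance, ev, phi, C,
    ⟨injective_ev, fun f => ⟨F f, analytic_F f, fun z => rfl⟩, continuous_ev⟩,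
    ⟨fun z => z ^ 2, (analyticOn_id.pow 2), fun z => rfl⟩, fun f z => ?_,
    strictlySingular, not_compact⟩
  rw [ev_apply, ev_apply, F_C]
  rfl

end Pool.Agent.Results.MP_628ecd_an.StrictlySingularComposition
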